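import Pool.Agent.N990.PT.Stm

set_option autoImplicit false

namespace Pool.Agent.N773.PT

open Pool.Agent.N988.EA Pool.Agent.N990.PT

theorem t_gwf : Pool.Agent.N990.PT.S_GWF := by
  intro b q β n τ
  have hZ : 0 < Zf b q β n τ := by
    unfold Zf
    exact Finset.sum_pos (fun s _ => Real.exp_pos _) ⟨fun _ => τ false, Finset.mem_univ _⟩
  refine ⟨hZ, fun s => ?_, ?_⟩
  · unfold gw
    exact div_nonneg (Real.exp_pos _).le hZ.le
  · unfold gw
    rw [← Finset.sum_div]
    exact div_self hZ.ne'

end Pool.Agent.N773.PT
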